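import Pool.Agent.ATZ.Stmts1

/-!
# Squad ATZ, row PJZ: the projection onto the sections of the elements of `W`
-/

open scoped BigOperators

noncomputable section

namespace Pool.Agent.PP.TB.H89

open Pool.Agent.Helper51_AWC Pool.Agent.Helper79_WRA Pool.Agent.PP Pool.Agent.PP.KF
open Pool.Agent.PP.K9 Pool.Agent.PP.K9.H97 Pool.Agent.PP.H75 Pool.Agent.PP.T3 Pool.Agent.PP.T2
open Pool.Agent.PP.T5

attribute [local instance] Ideal.Quotient.field

theorem pjz (zcp : ZcpStmt) (mmo : MmoStmt) (poz : PozStmt) : PjzStmt := by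
  intro ℓ hℓ M _ hM G _ _ e V Z γ b hd W hWZ hWT χ₀ hχ₀
  classical
  have := Fintype.ofFinite G
  have hW : Fintype W := Fintype.ofFinite W
  obtain ⟨z1, -, z3, -, -, -, -⟩ := zcp ℓ M hM G e V Z γ b hd
  set I := (Set.toFinite (Irr G)).toFinset with hI
  have hmem : ∀ χ, χ ∈ I ↔ χ ∈ Irr G := fun χ => Set.Finite.mem_toFinset _
  set c : W → ℂ := fun w => (cz V Z γ (w : G) : ℂ) with hc
  set m : W → (G → ℂ) → ℂ := fun w χ => mm M ℓ (Cu (w : G)) w (b w) χ χ₀ with hm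
  have hP : ∀ χ, Pw M ℓ V Z W γ b χ χ₀ = ∑ w : W, c w * m w χ := by
    intro χ
    unfold Pw
    rw [finsum_eq_sum_of_fintype]
  -- the orbits
  set O : W → Finset W := fun w =>
    Finset.univ.filter fun w' : W => ∃ t ∈ Tg V γ, t * (w' : G) * t⁻¹ = (w : G) with hO
  have hOmem : ∀ w w' : W, w' ∈ O w ↔ ∃ t ∈ Tg V γ, t * (w' : G) * t⁻¹ = (w : G) := by
    intro w w'
    simp only [hO, Finset.mem_filter, Finset.mem_univ, true_and]
  have hcO : ∀ w w' : W, w' ∈ O w → c w' = c w := by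
    intro w w' h
    obtain ⟨t, ht, hw⟩ := (hOmem w w').1 h
    have h1 := (z1 (w' : G) (hWZ w'.2) t ht).2.1
    rw [hw] at h1
    simp only [hc]
    rw [h1]
  have hcard : ∀ w : W, c w * ((O w).card : ℂ) = (iz V Z γ : ℂ) := by
    intro w
    have h1 := z3 (w : G) (hWZ w.2)
    have h2 : {y | ∃ t ∈ Tg V γ, y = t * (w : G) * t⁻¹} =
        (((O w).image (fun w' : W => (w' : G)) : Finset G) : Set G) := by
      ext y
      rw [Finset.coe_image, Set.mem_image]
      constructor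
      · rintro ⟨t, ht, rfl⟩
        refine ⟨⟨t * (w : G) * t⁻¹, hWT t ht w w.2⟩, ?_, rfl⟩
        rw [Finset.mem_coe, hOmem]
        refine ⟨t⁻¹, (Tg V γ).inv_mem ht, ?_⟩
        group
      · rintro ⟨w', hw', rfl⟩
        rw [Finset.mem_coe, hOmem] at hw'
        obtain ⟨t, ht, hw⟩ := hw'
        refine ⟨t⁻¹, (Tg V γ).inv_mem ht, ?_⟩
        rw [← hw]
        group
    rw [h2, Set.ncard_coe_finset, Finset.card_image_of_injective _ Subtype.val_injective] at h1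
    simp only [hc]
    exact_mod_cast h1
  have hsum : ∀ w : W, ∑ w' ∈ O w, c w' = (iz V Z γ : ℂ) := by
    intro w
    rw [Finset.sum_congr rfl (fun w' hw' => hcO w w' hw'), Finset.sum_const, nsmul_eq_mul,
      mul_comm, hcard]
  -- orthogonality
  have horth : ∀ w w' : W, ∑ χ ∈ I, m w χ * starRingEnd ℂ (m w' χ) =
      if w' ∈ O w then m w χ₀ else 0 := by
    intro w w'
    have h1 := mmo ℓ M hM G e V Z γ b hd (w : G) (hWZ w.2) (w' : G) (hWZ w'.2) χ₀ hχ₀
    rw [finsum_mem_eq_finite_toFinset_sum _ (Set.toFinite (Irr G))] at h1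
    split_ifs with h
    · exact h1.1 ((hOmem w w').1 h)
    · exact h1.2 (fun h2 => h ((hOmem w w').2 h2))
  have hPP : ∑ χ ∈ I, Pw M ℓ V Z W γ b χ χ₀ * starRingEnd ℂ (Pw M ℓ V Z W γ b χ χ₀) =
      (iz V Z γ : ℂ) * Pw M ℓ V Z W γ b χ₀ χ₀ := by
    have h1 : ∀ χ, Pw M ℓ V Z W γ b χ χ₀ * starRingEnd ℂ (Pw M ℓ V Z W γ b χ χ₀) =
        ∑ w : W, ∑ w' : W, c w * c w' * (m w χ * starRingEnd ℂ (m w' χ)) := by
      intro χ
      rw [hP, map_sum, Finset.sum_mul_sum]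
      refine Finset.sum_congr rfl fun w _ => Finset.sum_congr rfl fun w' _ => ?_
      rw [map_mul]
      have : starRingEnd ℂ (c w') = c w' := by
        simp only [hc]
        exact Complex.conj_natCast _
      rw [this]
      ring
    rw [Finset.sum_congr rfl fun χ _ => h1 χ, Finset.sum_comm, hP, Finset.mul_sum]
    refine Finset.sum_congr rfl fun w _ => ?_
    rw [Finset.sum_comm]
    have h2 : ∀ w' : W, ∑ χ ∈ I, c w * c w' * (m w χ * starRingEnd ℂ (m w' χ)) =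
        if w' ∈ O w then c w * c w' * m w χ₀ else 0 := by
      intro w'
      rw [← Finset.mul_sum, horth]
      split_ifs <;> simp
    rw [Finset.sum_congr rfl fun w' _ => h2 w', ← Finset.sum_filter,
      Finset.filter_univ_mem]
    have h3 : ∀ w' ∈ O w, c w * c w' * m w χ₀ = c w' * (c w * m w χ₀) := fun w' _ => by ring
    rw [Finset.sum_congr rfl h3, ← Finset.sum_mul, hsum]
  -- positivity
  have hpos : ∃ x : ℝ, 0 ≤ x ∧ Pw M ℓ V Z W γ b χ₀ χ₀ = (x : ℂ) := by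
    have h1 : ∀ w : W, ∃ x : ℝ, 0 ≤ x ∧ m w χ₀ = (x : ℂ) := fun w =>
      (poz ℓ M hM G e V Z γ b hd (w : G) (hWZ w.2)).1 χ₀ hχ₀
    choose y hy0 hy using h1
    refine ⟨∑ w : W, (cz V Z γ (w : G) : ℝ) * y w,
      Finset.sum_nonneg fun w _ => mul_nonneg (Nat.cast_nonneg _) (hy0 w), ?_⟩
    rw [hP]
    push_cast
    refine Finset.sum_congr rfl fun w _ => ?_
    rw [hy]
  obtain ⟨x, hx0, hx⟩ := hpos
  have hN : ∑ χ ∈ I, Complex.normSq (Pw M ℓ V Z W γ b χ χ₀) = (iz V Z γ : ℝ) * x := by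
    have h1 : ((∑ χ ∈ I, Complex.normSq (Pw M ℓ V Z W γ b χ χ₀) : ℝ) : ℂ) =
        (((iz V Z γ : ℝ) * x : ℝ) : ℂ) := by
      push_cast
      rw [← hx, ← hPP]
      exact Finset.sum_congr rfl fun χ _ => (Complex.mul_conj _).symm
    exact_mod_cast h1
  have hx2 : x * x ≤ (iz V Z γ : ℝ) * x := by
    rw [← hN]
    have h1 : x * x = Complex.normSq (Pw M ℓ V Z W γ b χ₀ χ₀) := by
      rw [hx, Complex.normSq_ofReal]
    rw [h1]
    exact Finset.single_le_sum (f := fun χ => Complex.normSq (Pw M ℓ V Z W γ b χ χ₀))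
      (fun χ _ => Complex.normSq_nonneg _) ((hmem χ₀).2 hχ₀)
  have hxi : x ≤ (iz V Z γ : ℝ) := by
    rcases hx0.eq_or_lt with h | h
    · rw [← h]
      exact Nat.cast_nonneg _
    · exact le_of_mul_le_mul_right hx2 h
  refine ⟨⟨x, hx, hxi⟩, ?_⟩
  rw [finsum_mem_eq_finite_toFinset_sum _ (Set.toFinite (Irr G))]
  rw [← hI, hN, sq]
  exact mul_le_mul_of_nonneg_left hxi (Nat.cast_nonneg _)

end Pool.Agent.PP.TB.H89
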